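import Mathlib

set_option autoImplicit false

open scoped Pointwise

namespace Pool.Agent.Results.MP_852f00_co.NoNestedOrder

/-- The one dimensional step set (together with zero). -/
def B1 : Finset ℤ := {0, 1, 3, 4, 11, 13, 14, 16}

/-- A vector on the first axis. -/
def io (m : ℕ) (x : ℤ) : Fin (m + 1) → ℤ := Pi.single 0 x

/-- The unit vectors. -/
def E (m : ℕ) (j : Fin (m + 1)) : Fin (m + 1) → ℤ := Pi.single j 1

/-- The indices of the other axes. -/
def J (m : ℕ) : Finset (Fin (m + 1)) := Finset.univ.filter (fun j => j ≠ 0)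

/-- The step set in dimension `m + 1`, together with zero. -/
def B (m : ℕ) : Finset (Fin (m + 1) → ℤ) := B1.image (io m) ∪ (J m).image (E m)

theorem F2 : ∀ x ∈ Finset.Icc (-20 : ℤ) 20, x ≠ 0 →
    (B1.filter (fun b => x + b ∈ B1)).card ≤ 4 ∧
    (4 ≤ (B1.filter (fun b => x + b ∈ B1)).card → x = 3 ∨ x = -3) := by
  decide

theorem F3 : ∀ x ∈ Finset.Icc (-20 : ℤ) 20, x ≠ 0 → x ≠ 3 →
    (B1.filter (fun b => x + b ∈ B1 ∨ x + b - 3 ∈ B1)).card ≤ 4 := by
  decide

theorem B1_bound (x : ℤ) (h : x ∈ B1) : 0 ≤ x ∧ x ≤ 16 := by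
  revert x
  decide

theorem F2' (x : ℤ) (hx : x ≠ 0) : (B1.filter (fun b => x + b ∈ B1)).card ≤ 4 ∧
    (4 ≤ (B1.filter (fun b => x + b ∈ B1)).card → x = 3 ∨ x = -3) := by
  by_cases h : x ∈ Finset.Icc (-20 : ℤ) 20
  · exact F2 x h hx
  · have : B1.filter (fun b => x + b ∈ B1) = ∅ := by
      apply Finset.filter_eq_empty_iff.2
      intro b hb hxb
      have h1 := B1_bound b hb
      have h2 := B1_bound _ hxb
      apply h
      rw [Finset.mem_Icc]
      omega
    rw [this]
    simp

theorem F3' (x : ℤ) (hx : x ≠ 0) (hx3 : x ≠ 3) :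
    (B1.filter (fun b => x + b ∈ B1 ∨ x + b - 3 ∈ B1)).card ≤ 4 := by
  by_cases h : x ∈ Finset.Icc (-20 : ℤ) 20
  · exact F3 x h hx hx3
  · have : B1.filter (fun b => x + b ∈ B1 ∨ x + b - 3 ∈ B1) = ∅ := by
      apply Finset.filter_eq_empty_iff.2
      intro b hb hxb
      have h1 := B1_bound b hb
      apply h
      rw [Finset.mem_Icc]
      rcases hxb with hxb | hxb
      · have h2 := B1_bound _ hxb
        omega
      · have h2 := B1_bound _ hxb
        omega
    rw [this]
    simp

theorem io_zero_apply (m : ℕ) (x : ℤ) : io m x 0 = x := by simp [io]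

theorem io_ne_apply (m : ℕ) (x : ℤ) (j : Fin (m + 1)) (hj : j ≠ 0) : io m x j = 0 := by
  simp [io, hj]

theorem E_apply_self (m : ℕ) (j : Fin (m + 1)) : E m j j = 1 := by simp [E]

theorem E_apply_ne (m : ℕ) (j i : Fin (m + 1)) (h : i ≠ j) : E m j i = 0 := by simp [E, h]

theorem io_inj (m : ℕ) : Function.Injective (io m) := by
  intro x y h
  have := congrFun h 0
  simpa [io] using this

theorem io_add (m : ℕ) (x y : ℤ) : io m (x + y) = io m x + io m y := by
  simp [io, Pi.single_add]

theorem io_sub (m : ℕ) (x y : ℤ) : io m (x - y) = io m x - io m y := by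
  simp [io, Pi.single_sub]

theorem io_zero (m : ℕ) : io m 0 = 0 := by simp [io]

theorem mem_B (m : ℕ) (v : Fin (m + 1) → ℤ) :
    v ∈ B m ↔ (∃ x ∈ B1, io m x = v) ∨ (∃ j : Fin (m + 1), j ≠ 0 ∧ E m j = v) := by
  simp [B, J]

theorem nonneg (m : ℕ) (v : Fin (m + 1) → ℤ) (hv : v ∈ B m) (j : Fin (m + 1)) : 0 ≤ v j := by
  rcases (mem_B m v).1 hv with ⟨x, hx, rfl⟩ | ⟨i, hi, rfl⟩
  · by_cases hj : j = 0
    · subst hj
      rw [io_zero_apply]
      exact (B1_bound x hx).1
    · rw [io_ne_apply m x j hj]
  · by_cases hj : j = i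
    · subst hj
      rw [E_apply_self]
      norm_num
    · rw [E_apply_ne m i j hj]

theorem big (m : ℕ) (v : Fin (m + 1) → ℤ) (hv : v ∈ B m) (j : Fin (m + 1)) (hj : j ≠ 0)
    (h : 1 ≤ v j) : v = E m j := by
  rcases (mem_B m v).1 hv with ⟨x, hx, rfl⟩ | ⟨i, hi, rfl⟩
  · rw [io_ne_apply m x j hj] at h
    norm_num at h
  · by_cases hji : j = i
    · rw [hji]
    · rw [E_apply_ne m i j hji] at h
      norm_num at h

theorem io_mem (m : ℕ) (x : ℤ) : io m x ∈ B m ↔ x ∈ B1 := by
  rw [mem_B]
  constructor
  · rintro (⟨y, hy, h⟩ | ⟨j, hj, h⟩)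
    · rwa [← io_inj m h]
    · have h1 := congrFun h j
      rw [E_apply_self, io_ne_apply m x j hj] at h1
      norm_num at h1
  · intro h
    exact Or.inl ⟨x, h, rfl⟩

theorem eq_io (m : ℕ) (x : Fin (m + 1) → ℤ) (h : ∀ j : Fin (m + 1), j ≠ 0 → x j = 0) :
    x = io m (x 0) := by
  ext j
  by_cases hj : j = 0
  · subst hj
    rw [io_zero_apply]
  · rw [h j hj, io_ne_apply m _ j hj]

/-- Number of ways to write `x` as a difference of two elements of `B m`. -/
def R (m : ℕ) (x : Fin (m + 1) → ℤ) : ℕ := ((B m).filter (fun b => x + b ∈ B m)).card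

theorem R_le (m : ℕ) (x : Fin (m + 1) → ℤ) (hx : x ≠ 0) :
    R m x ≤ 4 ∧ (4 ≤ R m x → x = io m 3 ∨ x = io m (-3)) := by
  by_cases hax : ∀ j : Fin (m + 1), j ≠ 0 → x j = 0
  · have hx0 := eq_io m x hax
    have hne : x 0 ≠ 0 := by
      intro h0
      apply hx
      rw [hx0, h0, io_zero]
    have hsub : (B m).filter (fun b => x + b ∈ B m) ⊆
        (B1.filter (fun b => x 0 + b ∈ B1)).image (io m) := by
      intro b hb
      rw [Finset.mem_filter] at hb
      obtain ⟨hb1, hb2⟩ := hb
      rcases (mem_B m b).1 hb1 with ⟨y, hy, rfl⟩ | ⟨j, hj, rfl⟩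
      · rw [hx0, ← io_add, io_mem] at hb2
        exact Finset.mem_image_of_mem _ (Finset.mem_filter.2 ⟨hy, hb2⟩)
      · exfalso
        have h1 : (x + E m j) j = 1 := by
          rw [Pi.add_apply, hax j hj, E_apply_self, zero_add]
        have h2 := big m _ hb2 j hj (by rw [h1])
        apply hx
        have h3 : x + E m j - E m j = 0 := by rw [h2, sub_self]
        rwa [add_sub_cancel_right] at h3
    have hle : R m x ≤ (B1.filter (fun b => x 0 + b ∈ B1)).card :=
      (Finset.card_le_card hsub).trans Finset.card_image_le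
    obtain ⟨g1, g2⟩ := F2' (x 0) hne
    refine ⟨hle.trans g1, fun h4 => ?_⟩
    rcases g2 (h4.trans hle) with h | h
    · left
      rw [hx0, h]
    · right
      rw [hx0, h]
  · push_neg at hax
    obtain ⟨j, hj, hxj⟩ := hax
    have hle : R m x ≤ 1 := by
      rcases lt_or_gt_of_ne hxj with hneg | hpos
      · have hsub : (B m).filter (fun b => x + b ∈ B m) ⊆ {E m j} := by
          intro b hb
          rw [Finset.mem_filter] at hb
          have h1 := nonneg m _ hb.2 j
          rw [Pi.add_apply] at h1
          rw [Finset.mem_singleton]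
          exact big m b hb.1 j hj (by omega)
        exact (Finset.card_le_card hsub).trans (by simp)
      · have hsub : (B m).filter (fun b => x + b ∈ B m) ⊆ {E m j - x} := by
          intro b hb
          rw [Finset.mem_filter] at hb
          have h1 := nonneg m _ hb.1 j
          have h2 := big m _ hb.2 j hj (by rw [Pi.add_apply]; omega)
          rw [Finset.mem_singleton, ← h2, add_sub_cancel_left]
        exact (Finset.card_le_card hsub).trans (by simp)
    refine ⟨by omega, fun h => by omega⟩

theorem C_le (m : ℕ) (x : Fin (m + 1) → ℤ) (hx : x ≠ 0) (hx3 : x ≠ io m 3) :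
    ((B m).filter (fun b => x + b ∈ B m ∨ x + b - io m 3 ∈ B m)).card ≤ 4 := by
  by_cases hax : ∀ j : Fin (m + 1), j ≠ 0 → x j = 0
  · have hx0 := eq_io m x hax
    have hne : x 0 ≠ 0 := by
      intro h0
      apply hx
      rw [hx0, h0, io_zero]
    have hne3 : x 0 ≠ 3 := by
      intro h0
      apply hx3
      rw [hx0, h0]
    have hsub : (B m).filter (fun b => x + b ∈ B m ∨ x + b - io m 3 ∈ B m) ⊆
        (B1.filter (fun b => x 0 + b ∈ B1 ∨ x 0 + b - 3 ∈ B1)).image (io m) := by
      intro b hb
      rw [Finset.mem_filter] at hb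
      obtain ⟨hb1, hb2⟩ := hb
      rcases (mem_B m b).1 hb1 with ⟨y, hy, rfl⟩ | ⟨j, hj, rfl⟩
      · rw [hx0, ← io_add, ← io_sub, io_mem, io_mem] at hb2
        exact Finset.mem_image_of_mem _ (Finset.mem_filter.2 ⟨hy, hb2⟩)
      · exfalso
        rcases hb2 with hb2 | hb2
        · have h1 : (x + E m j) j = 1 := by
            rw [Pi.add_apply, hax j hj, E_apply_self, zero_add]
          have h2 := big m _ hb2 j hj (by rw [h1])
          apply hx
          have h3 : x + E m j - E m j = 0 := by rw [h2, sub_self]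
          rwa [add_sub_cancel_right] at h3
        · have h1 : (x + E m j - io m 3) j = 1 := by
            rw [Pi.sub_apply, Pi.add_apply, hax j hj, E_apply_self, io_ne_apply m 3 j hj]
            norm_num
          have h2 := big m _ hb2 j hj (by rw [h1])
          apply hx3
          have h3 : x = (x + E m j - io m 3) - E m j + io m 3 := by abel
          rw [h2] at h3
          rw [h3]
          abel
    have hle := (Finset.card_le_card hsub).trans Finset.card_image_le
    exact hle.trans (F3' (x 0) hne hne3)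
  · push_neg at hax
    obtain ⟨j, hj, hxj⟩ := hax
    rcases lt_or_gt_of_ne hxj with hneg | hpos
    · have hsub : (B m).filter (fun b => x + b ∈ B m ∨ x + b - io m 3 ∈ B m) ⊆ {E m j} := by
        intro b hb
        rw [Finset.mem_filter] at hb
        rw [Finset.mem_singleton]
        rcases hb.2 with h | h
        · have h1 := nonneg m _ h j
          rw [Pi.add_apply] at h1
          exact big m b hb.1 j hj (by omega)
        · have h1 := nonneg m _ h j
          rw [Pi.sub_apply, Pi.add_apply, io_ne_apply m 3 j hj] at h1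
          exact big m b hb.1 j hj (by omega)
      exact (Finset.card_le_card hsub).trans (by simp)
    · have hsub : (B m).filter (fun b => x + b ∈ B m ∨ x + b - io m 3 ∈ B m) ⊆
          {E m j - x, E m j + io m 3 - x} := by
        intro b hb
        rw [Finset.mem_filter] at hb
        have h0 := nonneg m _ hb.1 j
        rw [Finset.mem_insert, Finset.mem_singleton]
        rcases hb.2 with h | h
        · left
          have h2 := big m _ h j hj (by rw [Pi.add_apply]; omega)
          rw [← h2, add_sub_cancel_left]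
        · right
          have h2 := big m _ h j hj (by
            rw [Pi.sub_apply, Pi.add_apply, io_ne_apply m 3 j hj]; omega)
          rw [← h2]
          abel
      exact (Finset.card_le_card hsub).trans (by
        exact (Finset.card_insert_le _ _).trans (by simp))

theorem card_J (m : ℕ) : (J m).card = m := by
  have h := Finset.card_filter_add_card_filter_not (s := (Finset.univ : Finset (Fin (m + 1))))
    (p := fun j => j = 0)
  have h1 : (Finset.univ.filter (fun j : Fin (m + 1) => j = 0)).card = 1 := by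
    rw [Finset.filter_eq']
    simp
  have h2 : (J m).card = (Finset.univ.filter (fun j : Fin (m + 1) => ¬ (j = 0))).card := rfl
  rw [h2]
  rw [h1, Finset.card_univ, Fintype.card_fin] at h
  omega

theorem card_B (m : ℕ) : (B m).card = 8 + m := by
  unfold B
  rw [Finset.card_union_of_disjoint, Finset.card_image_of_injective _ (io_inj m),
    Finset.card_image_of_injective, card_J]
  · rfl
  · intro i j h
    by_contra hij
    have := congrFun h i
    rw [E_apply_self, E_apply_ne m j i hij] at this
    norm_num at this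
  · rw [Finset.disjoint_left]
    intro v hv hv'
    rw [Finset.mem_image] at hv hv'
    obtain ⟨x, hx, rfl⟩ := hv
    obtain ⟨j, hj, hj'⟩ := hv'
    have hj0 : j ≠ 0 := (Finset.mem_filter.1 hj).2
    have := congrFun hj' j
    rw [E_apply_self, io_ne_apply m x j hj0] at this
    norm_num at this

/-- Cardinality of the sumset of a pair with `B m`. -/
theorem pair_sum (m : ℕ) (p q : Fin (m + 1) → ℤ) :
    (({p, q} : Finset (Fin (m + 1) → ℤ)) + B m).card + R m (q - p) = 2 * (8 + m) := by
  have h1 : (({p, q} : Finset (Fin (m + 1) → ℤ)) + B m)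
      = (B m).image (fun b => p + b) ∪ (B m).image (fun b => q + b) := by
    ext v
    simp only [Finset.mem_add, Finset.mem_insert, Finset.mem_singleton, Finset.mem_union,
      Finset.mem_image]
    constructor
    · rintro ⟨y, rfl | rfl, z, hz, rfl⟩
      · exact Or.inl ⟨z, hz, rfl⟩
      · exact Or.inr ⟨z, hz, rfl⟩
    · rintro (⟨z, hz, rfl⟩ | ⟨z, hz, rfl⟩)
      · exact ⟨p, Or.inl rfl, z, hz, rfl⟩
      · exact ⟨q, Or.inr rfl, z, hz, rfl⟩
  have h2 : ((B m).image (fun b => p + b) ∩ (B m).image (fun b => q + b)).card = R m (q - p) := by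
    unfold R
    have : (B m).image (fun b => p + b) ∩ (B m).image (fun b => q + b)
        = ((B m).filter (fun b => q - p + b ∈ B m)).image (fun b => q + b) := by
      ext v
      simp only [Finset.mem_inter, Finset.mem_image, Finset.mem_filter]
      constructor
      · rintro ⟨⟨b, hb, rfl⟩, ⟨c, hc, h⟩⟩
        refine ⟨c, ⟨hc, ?_⟩, h⟩
        have : q - p + c = b := by
          have h' : q + c - p = p + b - p := by rw [h]
          rw [add_sub_cancel_left] at h'
          rw [← h']
          abel
        rw [this]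
        exact hb
      · rintro ⟨c, ⟨hc, hc'⟩, rfl⟩
        refine ⟨⟨_, hc', ?_⟩, ⟨c, hc, rfl⟩⟩
        abel
    rw [this, Finset.card_image_of_injective _ (add_right_injective q)]
  rw [h1, ← h2, Finset.card_union_add_card_inter,
    Finset.card_image_of_injective _ (add_right_injective p),
    Finset.card_image_of_injective _ (add_right_injective q), card_B]
  ring

/-- A triple that contains a pair at distance `3` on the first axis has a large sumset. -/
theorem triple_sum (m : ℕ) (p r : Fin (m + 1) → ℤ) (h1 : r ≠ p) (h2 : r ≠ p + io m 3) :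
    3 * (8 + m) ≤ (({p, p + io m 3, r} : Finset (Fin (m + 1) → ℤ)) + B m).card + 8 := by
  have hpair := pair_sum m p (p + io m 3)
  rw [add_sub_cancel_left] at hpair
  have hR := (R_le m (io m 3) (by
    intro h
    have := congrFun h 0
    rw [io_zero_apply] at this
    norm_num at this)).1
  have h3 : (({p, p + io m 3, r} : Finset (Fin (m + 1) → ℤ)) + B m)
      = (({p, p + io m 3} : Finset (Fin (m + 1) → ℤ)) + B m) ∪ (B m).image (fun b => r + b) := by
    ext v
    simp only [Finset.mem_add, Finset.mem_insert, Finset.mem_singleton, Finset.mem_union,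
      Finset.mem_image]
    constructor
    · rintro ⟨y, rfl | rfl | rfl, z, hz, rfl⟩
      · exact Or.inl ⟨y, Or.inl rfl, z, hz, rfl⟩
      · exact Or.inl ⟨_, Or.inr rfl, z, hz, rfl⟩
      · exact Or.inr ⟨z, hz, rfl⟩
    · rintro (⟨y, rfl | rfl, z, hz, rfl⟩ | ⟨z, hz, rfl⟩)
      · exact ⟨y, Or.inl rfl, z, hz, rfl⟩
      · exact ⟨_, Or.inr (Or.inl rfl), z, hz, rfl⟩
      · exact ⟨r, Or.inr (Or.inr rfl), z, hz, rfl⟩
  have h4 : ((({p, p + io m 3} : Finset (Fin (m + 1) → ℤ)) + B m) ∩
      (B m).image (fun b => r + b)).card ≤ 4 := by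
    have hsub : ((({p, p + io m 3} : Finset (Fin (m + 1) → ℤ)) + B m) ∩
        (B m).image (fun b => r + b)) ⊆ ((B m).filter
          (fun b => r - p + b ∈ B m ∨ r - p + b - io m 3 ∈ B m)).image (fun b => r + b) := by
      intro v hv
      rw [Finset.mem_inter, Finset.mem_image] at hv
      obtain ⟨hv1, ⟨c, hc, rfl⟩⟩ := hv
      rw [Finset.mem_add] at hv1
      obtain ⟨y, hy, z, hz, h⟩ := hv1
      rw [Finset.mem_insert, Finset.mem_singleton] at hy
      refine Finset.mem_image.2 ⟨c, Finset.mem_filter.2 ⟨hc, ?_⟩, rfl⟩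
      rcases hy with rfl | rfl
      · left
        have : r - y + c = z := by
          have h' : r + c - y = y + z - y := by rw [h]
          rw [add_sub_cancel_left] at h'
          rw [← h']
          abel
        rw [this]
        exact hz
      · right
        have : r - p + c - io m 3 = z := by
          have h' : r + c - p - io m 3 = p + io m 3 + z - p - io m 3 := by rw [h]
          have h'' : p + io m 3 + z - p - io m 3 = z := by abel
          rw [h''] at h'
          rw [← h']
          abel
        rw [this]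
        exact hz
    refine (Finset.card_le_card hsub).trans (Finset.card_image_le.trans ?_)
    apply C_le
    · exact sub_ne_zero.2 h1
    · intro h
      apply h2
      rw [← h]
      abel
  have h5 := Finset.card_union_add_card_inter
    (({p, p + io m 3} : Finset (Fin (m + 1) → ℤ)) + B m) ((B m).image (fun b => r + b))
  rw [← h3, Finset.card_image_of_injective _ (add_right_injective r), card_B] at h5
  omega

/-- The triple `0, 1, 2` on the first axis has a small sumset. -/
theorem good_triple (m : ℕ) :
    (({io m 0, io m 1, io m 2} : Finset (Fin (m + 1) → ℤ)) + B m).card ≤ 15 + 3 * m := by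
  have hsub : (({io m 0, io m 1, io m 2} : Finset (Fin (m + 1) → ℤ)) + B m) ⊆
      ((({0, 1, 2} : Finset ℤ) + B1).image (io m)) ∪
      ((J m ×ˢ ({0, 1, 2} : Finset ℤ)).image (fun jt => io m jt.2 + E m jt.1)) := by
    intro v hv
    rw [Finset.mem_add] at hv
    obtain ⟨y, hy, z, hz, rfl⟩ := hv
    obtain ⟨t, ht, rfl⟩ : ∃ t ∈ ({0, 1, 2} : Finset ℤ), io m t = y := by
      simp only [Finset.mem_insert, Finset.mem_singleton] at hy
      rcases hy with rfl | rfl | rfl
      · exact ⟨0, by simp, rfl⟩
      · exact ⟨1, by simp, rfl⟩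
      · exact ⟨2, by simp, rfl⟩
    rw [Finset.mem_union]
    rcases (mem_B m z).1 hz with ⟨x, hx, rfl⟩ | ⟨j, hj, rfl⟩
    · left
      rw [← io_add]
      exact Finset.mem_image_of_mem _ (Finset.add_mem_add ht hx)
    · right
      exact Finset.mem_image.2 ⟨(j, t), Finset.mem_product.2
        ⟨Finset.mem_filter.2 ⟨Finset.mem_univ _, hj⟩, ht⟩, rfl⟩
  have h15 : (({0, 1, 2} : Finset ℤ) + B1).card = 15 := by decide
  have h3 : ({0, 1, 2} : Finset ℤ).card = 3 := by decide
  refine (Finset.card_le_card hsub).trans ((Finset.card_union_le _ _).trans ?_)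
  have a1 : (((({0, 1, 2} : Finset ℤ) + B1).image (io m))).card ≤ 15 := by
    rw [← h15]
    exact Finset.card_image_le
  have a2 : ((J m ×ˢ ({0, 1, 2} : Finset ℤ)).image (fun jt => io m jt.2 + E m jt.1)).card
      ≤ 3 * m := by
    refine Finset.card_image_le.trans ?_
    rw [Finset.card_product, card_J, h3, mul_comm]
  omega

theorem R_three (m : ℕ) : 4 ≤ R m (io m 3) := by
  have hsub : (B1.filter (fun b => 3 + b ∈ B1)).image (io m) ⊆
      (B m).filter (fun b => io m 3 + b ∈ B m) := by
    intro v hv
    rw [Finset.mem_image] at hv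
    obtain ⟨x, hx, rfl⟩ := hv
    rw [Finset.mem_filter] at hx ⊢
    rw [← io_add, io_mem, io_mem]
    exact hx
  have h4 : (B1.filter (fun b => 3 + b ∈ B1)).card = 4 := by decide
  have := Finset.card_le_card hsub
  rwa [Finset.card_image_of_injective _ (io_inj m), h4] at this

theorem zero_mem_B (m : ℕ) : (0 : Fin (m + 1) → ℤ) ∈ B m := by
  rw [← io_zero m, io_mem]
  decide

/-- The vertex boundary plus the size is the size of the sumset with `B m`. -/
theorem boundary_eq (m : ℕ) (S : Finset (Fin (m + 1) → ℤ)) :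
    ((S + (B m).erase 0) \ S).card + S.card = (S + B m).card := by
  have h : S + B m = ((S + (B m).erase 0) \ S) ∪ S := by
    ext v
    rw [Finset.sdiff_union_self_eq_union, Finset.mem_union, Finset.mem_add, Finset.mem_add]
    constructor
    · rintro ⟨y, hy, z, hz, rfl⟩
      by_cases h0 : z = 0
      · right
        rw [h0, add_zero]
        exact hy
      · left
        exact ⟨y, hy, z, Finset.mem_erase.2 ⟨h0, hz⟩, rfl⟩
    · rintro (⟨y, hy, z, hz, rfl⟩ | hv)
      · exact ⟨y, hy, z, Finset.mem_of_mem_erase hz, rfl⟩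
      · exact ⟨v, hv, 0, zero_mem_B m, add_zero v⟩
  rw [h, Finset.card_union_of_disjoint Finset.sdiff_disjoint]

theorem closure_top (m : ℕ) :
    AddSubgroup.closure (((B m).erase 0 : Finset (Fin (m + 1) → ℤ)) : Set (Fin (m + 1) → ℤ)) = ⊤ := by
  rw [eq_top_iff]
  intro x _
  have hmem : ∀ j : Fin (m + 1), E m j ∈
      AddSubgroup.closure (((B m).erase 0 : Finset (Fin (m + 1) → ℤ)) : Set (Fin (m + 1) → ℤ)) := by
    intro j
    apply AddSubgroup.subset_closure
    rw [Finset.mem_coe, Finset.mem_erase]
    constructor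
    · intro h
      have := congrFun h j
      rw [E_apply_self] at this
      norm_num at this
    · rw [mem_B]
      by_cases hj : j = 0
      · left
        exact ⟨1, by decide, by rw [hj]; rfl⟩
      · right
        exact ⟨j, hj, rfl⟩
  have hx : x = ∑ j : Fin (m + 1), x j • E m j := by
    ext i
    rw [Finset.sum_apply]
    simp [E, Pi.single_apply]
  rw [hx]
  exact AddSubgroup.sum_mem _ (fun j _ => AddSubgroup.zsmul_mem _ (hmem j) _)

/-- In every dimension `d ≥ 1` there is a finite generating set `U` of nonzero vectors such that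
no sequence of distinct points has all its initial segments of sizes `1, 2, 3` of minimal vertex
boundary. -/
theorem result (d : ℕ) (hd : 1 ≤ d) :
    ∃ U : Finset (Fin d → ℤ), (0 : Fin d → ℤ) ∉ U ∧
      AddSubgroup.closure (U : Set (Fin d → ℤ)) = ⊤ ∧
      ∀ w : ℕ → (Fin d → ℤ), Function.Injective w →
        ∃ n : ℕ, 1 ≤ n ∧ n ≤ 3 ∧ ∃ S : Finset (Fin d → ℤ), S.card = n ∧
          ((S + U) \ S).card <
            ((((Finset.range n).image w) + U) \ ((Finset.range n).image w)).card := by
  obtain ⟨m, rfl⟩ : ∃ m : ℕ, d = m + 1 := ⟨d - 1, by omega⟩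
  refine ⟨(B m).erase 0, Finset.notMem_erase _ _, closure_top m, ?_⟩
  intro w hw
  by_contra hcon
  push_neg at hcon
  have hio : ∀ x y : ℤ, x ≠ y → io m x ≠ io m y := fun x y h h' => h (io_inj m h')
  -- size two
  have i2 : (Finset.range 2).image w = {w 0, w 1} := by
    ext v
    simp only [Finset.mem_image, Finset.mem_range, Finset.mem_insert, Finset.mem_singleton]
    constructor
    · rintro ⟨i, hi, rfl⟩
      interval_cases i
      · exact Or.inl rfl
      · exact Or.inr rfl
    · rintro (rfl | rfl)
      · exact ⟨0, by norm_num, rfl⟩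
      · exact ⟨1, by norm_num, rfl⟩
  have i3 : (Finset.range 3).image w = {w 0, w 1, w 2} := by
    ext v
    simp only [Finset.mem_image, Finset.mem_range, Finset.mem_insert, Finset.mem_singleton]
    constructor
    · rintro ⟨i, hi, rfl⟩
      interval_cases i
      · exact Or.inl rfl
      · exact Or.inr (Or.inl rfl)
      · exact Or.inr (Or.inr rfl)
    · rintro (rfl | rfl | rfl)
      · exact ⟨0, by norm_num, rfl⟩
      · exact ⟨1, by norm_num, rfl⟩
      · exact ⟨2, by norm_num, rfl⟩
  have c2 : ((Finset.range 2).image w).card = 2 := by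
    rw [Finset.card_image_of_injective _ hw, Finset.card_range]
  have c3 : ((Finset.range 3).image w).card = 3 := by
    rw [Finset.card_image_of_injective _ hw, Finset.card_range]
  have t2 : ({io m 0, io m 3} : Finset (Fin (m + 1) → ℤ)).card = 2 :=
    Finset.card_pair (hio 0 3 (by norm_num))
  have t3 : ({io m 0, io m 1, io m 2} : Finset (Fin (m + 1) → ℤ)).card = 3 :=
    Finset.card_eq_three.2 ⟨_, _, _, hio 0 1 (by norm_num), hio 0 2 (by norm_num),
      hio 1 2 (by norm_num), rfl⟩
  have e2 := hcon 2 (by norm_num) (by norm_num) {io m 0, io m 3} t2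
  have e3 := hcon 3 (by norm_num) (by norm_num) {io m 0, io m 1, io m 2} t3
  have b1 := boundary_eq m {io m 0, io m 3}
  have b2 := boundary_eq m ((Finset.range 2).image w)
  have b3 := boundary_eq m {io m 0, io m 1, io m 2}
  have b4 := boundary_eq m ((Finset.range 3).image w)
  rw [t2] at b1
  rw [c2] at b2
  rw [t3] at b3
  rw [c3] at b4
  have p1 := pair_sum m (io m 0) (io m 3)
  have p2 := pair_sum m (w 0) (w 1)
  rw [i2] at e2 b2
  rw [i3] at e3 b4
  rw [io_zero, sub_zero] at p1
  rw [io_zero] at b1 b3 e2 e3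
  have gt := good_triple m
  rw [io_zero] at gt
  have hR3 := R_three m
  have hdiff : w 1 - w 0 ≠ 0 := sub_ne_zero.2 (fun h => by
    have := hw h
    norm_num at this)
  have hR : 4 ≤ R m (w 1 - w 0) := by omega
  have hw20 : w 2 ≠ w 0 := fun h => by
    have := hw h
    norm_num at this
  have hw21 : w 2 ≠ w 1 := fun h => by
    have := hw h
    norm_num at this
  rcases (R_le m (w 1 - w 0) hdiff).2 hR with h | h
  · have hw1 : w 1 = w 0 + io m 3 := by
      rw [← h]
      abel
    have ts := triple_sum m (w 0) (w 2) hw20 (by rw [← hw1]; exact hw21)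
    rw [← hw1] at ts
    omega
  · have hw0 : w 0 = w 1 + io m 3 := by
      have h' : io m (-3) = - io m 3 := by
        simp [io, Pi.single_neg]
      rw [h'] at h
      have : w 0 = w 1 - (w 1 - w 0) := by abel
      rw [this, h]
      abel
    have ts := triple_sum m (w 1) (w 2) hw21 (by rw [← hw0]; exact hw20)
    rw [← hw0] at ts
    have hswap : ({w 1, w 0, w 2} : Finset (Fin (m + 1) → ℤ)) = {w 0, w 1, w 2} :=
      Finset.insert_comm _ _ _
    rw [hswap] at ts
    omega

end Pool.Agent.Results.MP_852f00_co.NoNestedOrder
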